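import Mathlib
import Pool.Agent.helper444_cyc.Asc4

set_option autoImplicit false

/-! A group which is virtually an ascending HNN extension of a finitely generated group is not
isomorphic to any of its HNN extensions with cyclic associated subgroups. -/

/-- Let `G` be a group with a subgroup `K` of finite index which is isomorphic to an ascending HNN
extension `⟨D, s ∣ s d s⁻¹ = ψ d, d ∈ D⟩` of a finitely generated group `D`, where `ψ` is an
isomorphism of `D` onto a subgroup `D'` of `D`. Then `G` is not isomorphic to any HNN extension
of `G` whose associated subgroups are generated by elements `a` and `b` of `G`. -/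
theorem Pool.Agent.Results.MP_64298a_al.AscendingHNN.result
    (G : Type) [Group G] (K : Subgroup G) [K.FiniteIndex]
    (D : Type) [Group D] [Group.FG D] (D' : Subgroup D) (ψ : (⊤ : Subgroup D) ≃* D')
    (f : HNNExtension D ⊤ D' ψ ≃* K) (a b : G)
    (φ : Subgroup.zpowers a ≃* Subgroup.zpowers b) :
    IsEmpty (HNNExtension G (Subgroup.zpowers a) (Subgroup.zpowers b) φ ≃* G) :=
  Pool.Agent.helper444_cyc.asc_main D' ψ K Subgroup.FiniteIndex.index_ne_zero f a b φ
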