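import Mathlib
import Pool.Agent.helper444_cyc.Main1

set_option autoImplicit false

/-! A finitely generated group with an infinite finitely generated commensurated subgroup of
infinite index is not isomorphic to any of its HNN extensions with cyclic associated subgroups. -/

/-- Let `G` be a finitely generated group which has an infinite, finitely generated subgroup `N` of
infinite index whose commensurator is all of `G`. Then `G` is not isomorphic to any HNN extension
of `G` whose associated subgroups are generated by elements `a` and `b` of `G`. -/
theorem Pool.Agent.Results.MP_64298a_al.CommensuratedSubgroup.result
    (G : Type) [Group G] [Group.FG G] (a b : G)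
    (φ : Subgroup.zpowers a ≃* Subgroup.zpowers b)
    (N : Subgroup G) (hfg : N.FG) (hinf : Infinite N) (hidx : N.index = 0)
    (hcomm : Subgroup.Commensurable.commensurator N = ⊤) :
    IsEmpty (HNNExtension G (Subgroup.zpowers a) (Subgroup.zpowers b) φ ≃* G) :=
  Pool.Agent.helper444_cyc.main a b φ N hfg hinf hidx hcomm
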