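import Mathlib
import Pool.Agent.helper444_cyc.Fin3

set_option autoImplicit false

/-! A group with `dim Hom(G, F) ≥ 2` having a finite index subgroup which maps onto `ℤ` with kernel
of finite dimensional first cohomology over `F` is not isomorphic to any of its HNN extensions with
cyclic associated subgroups. -/

/-- Let `F` be a field and `G` a group with `dim Hom(G, F) ≥ 2`. Let `K` be a subgroup of finite
index in `G` such that every element of `G` has a power in `K` whose exponent is not zero in `F`
(automatic in characteristic zero), and let `χ : K → ℤ` be a nonzero homomorphism such that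
`Hom(ker χ, F)` is finite dimensional. Then `G` is not isomorphic to any HNN extension of `G`
whose associated subgroups are generated by elements `a` and `b` of `G`. -/
theorem Pool.Agent.Results.MP_64298a_al.FiniteKernel.result
    (F G : Type) [Field F] [Group G] (hG : 2 ≤ Module.rank F (Additive G →+ F))
    (K : Subgroup G) [K.FiniteIndex] (hK : ∀ x : G, ∃ r : ℕ, (r : F) ≠ 0 ∧ x ^ r ∈ K)
    (χ : K →* Multiplicative ℤ) (hχ : χ ≠ 1) (hker : Module.Finite F (Additive χ.ker →+ F))
    (a b : G) (φ : Subgroup.zpowers a ≃* Subgroup.zpowers b) :
    IsEmpty (HNNExtension G (Subgroup.zpowers a) (Subgroup.zpowers b) φ ≃* G) :=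
  Pool.Agent.helper444_cyc.fin_main hG K Subgroup.FiniteIndex.index_ne_zero hK χ hχ hker a b φ
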